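import Pool.Agent.Lib.MP_c73c36_mp.Inst
import Pool.Agent.Lib.MP_c73c36_mp.QuantFin

set_option autoImplicit false

namespace Pool.Agent.Results.MP_c73c36_mp.UniformSBC

open Pool.Agent.Lib.MP_c73c36_mp

/-- The patch with domain `D` and values `p` occurs in the configuration `X`, translated by `a`. -/
def Occurs {k : ℕ} (D : Finset (Fin 2 → ℤ)) (p X : (Fin 2 → ℤ) → Fin k) (a : Fin 2 → ℤ) : Prop :=
  ∀ i ∈ D, X (i + a) = p i

/-- No translate of a forbidden pattern occurs in `X`. -/
def Valid {k m : ℕ} (F : Fin m → Finset (Fin 2 → ℤ) × ((Fin 2 → ℤ) → Fin k))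
    (X : (Fin 2 → ℤ) → Fin k) : Prop :=
  ∀ j a, ¬ Occurs (F j).1 (F j).2 X a

/-- The translation of a configuration by `a`. -/
def translate {k : ℕ} (a : Fin 2 → ℤ) (X : (Fin 2 → ℤ) → Fin k) : (Fin 2 → ℤ) → Fin k :=
  fun i => X (i - a)

/-- A non-periodic uniquely ergodic tiling system on the square lattice that satisfies the
Strict Boundary Condition with constants polynomial in the size of the patch, and with one
constant for all observables, of infinite range too, whose variations decay polynomially. -/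
theorem result :
    ∃ k m : ℕ, ∃ F : Fin m → Finset (Fin 2 → ℤ) × ((Fin 2 → ℤ) → Fin k),
      (∃ X, Valid F X) ∧
      (∀ X, Valid F X → ∀ a, a ≠ 0 → translate a X ≠ X) ∧
      (∃! μ : MeasureTheory.Measure ((Fin 2 → ℤ) → Fin k),
        MeasureTheory.IsProbabilityMeasure μ ∧ μ {X | ¬ Valid F X} = 0 ∧
        ∀ a, MeasureTheory.Measure.map (translate a) μ = μ) ∧
      ∃ (q : ℕ) (C : ℝ),
        (∀ (r : ℕ) (D : Finset (Fin 2 → ℤ)) (p : (Fin 2 → ℤ) → Fin k),
          (∀ i ∈ D, ∀ t, |i t| < (r : ℤ)) →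
          ∀ X Y : (Fin 2 → ℤ) → Fin k, Valid F X → {i | Y i ≠ X i}.Finite →
            {a | Occurs D p Y a ∧ ¬ Occurs D p X a}.Finite ∧
            {a | Occurs D p X a ∧ ¬ Occurs D p Y a}.Finite ∧
            {a | ∃ j, Occurs (F j).1 (F j).2 Y a}.Finite ∧
            |({a | Occurs D p Y a ∧ ¬ Occurs D p X a}.ncard : ℝ) -
              ({a | Occurs D p X a ∧ ¬ Occurs D p Y a}.ncard : ℝ)| ≤
              C * ((r : ℝ) + 1) ^ q * ({a | ∃ j, Occurs (F j).1 (F j).2 Y a}.ncard : ℝ)) ∧
        ∀ g : ((Fin 2 → ℤ) → Fin k) → ℝ,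
          (∀ (n : ℕ) (X Y : (Fin 2 → ℤ) → Fin k),
            (∀ i : Fin 2 → ℤ, (∀ t, |i t| < (n : ℤ)) → X i = Y i) →
            |g X - g Y| ≤ 1 / ((n : ℝ) + 1) ^ q) →
          ∀ X Y : (Fin 2 → ℤ) → Fin k, Valid F X → {i | Y i ≠ X i}.Finite →
            Summable (fun a => g (translate a Y) - g (translate a X)) ∧
            |∑' a, (g (translate a Y) - g (translate a X))| ≤
              C * ({a | ∃ j, Occurs (F j).1 (F j).2 Y a}.ncard : ℝ) := by
  classical
  obtain ⟨k, m, F, hne, hap, htr, q, C, hq⟩ := main_q theSim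
  have hsub : ∀ a : Fin 2 → ℤ, (translate a : ((Fin 2 → ℤ) → Fin k) → _) = sh (-a) := by
    intro a; funext X i; simp [translate, sh, sub_eq_add_neg]
  refine ⟨k, m, F, hne, ?_, ?_, q, C, ?_, ?_⟩
  · intro X hX a ha he
    have := hap X hX (-a) ((congrFun (hsub a) X).symm.trans he)
    exact ha (neg_eq_zero.1 this)
  · obtain ⟨μ, h1, h2, h3, h4⟩ := exists_measure_two F hne (phi (1, 0)) (phi (0, 1))
    have h5 := invariant_of_closure μ _ closure_phi (by
      intro a ha
      rcases ha with rfl | rfl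
      exacts [h3, h4])
    refine ⟨μ, ⟨h1, h2, fun a => by rw [hsub]; exact h5 _⟩, ?_⟩
    rintro ν ⟨g1, g2, g3⟩
    refine unique_measure htr ν μ g2 h2 (fun a => ?_) h5
    have := g3 (-a)
    rwa [hsub, neg_neg] at this
  · intro r D p hr X Y hX hD
    have hp : Loc (fun X : (Fin 2 → ℤ) → Fin k => ∀ i ∈ D, X i = p i) :=
      ⟨D, fun X Y h => propext (forall₂_congr (fun i hi => by rw [h i hi]))⟩
    let f : ((Fin 2 → ℤ) → Fin k) → ℝ := fun X => if ∀ i ∈ D, X i = p i then 1 else 0
    have hf : Loc f :=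
      ⟨D, fun X Y h => if_congr (forall₂_congr (fun i hi => by rw [h i hi])) rfl rfl⟩
    have hρ : (0 : ℝ) < ((r : ℝ) + 1) ^ q := by positivity
    have h1 := (hq (fun X => 1 / ((r : ℝ) + 1) ^ q * f X) (fun n X Y hXY => by
      rw [← mul_sub, abs_mul, abs_of_pos (one_div_pos.2 hρ)]
      by_cases hn : r ≤ n
      · have : f X = f Y := if_congr (forall₂_congr (fun i hi => by
          rw [hXY i (fun t => (hr i hi t).trans_le (by exact_mod_cast hn))])) rfl rfl
        rw [this, sub_self, abs_zero, mul_zero]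
        positivity
      · have a1 : |f X - f Y| ≤ 1 := by
          simp only [f]
          split_ifs <;> simp
        refine (mul_le_of_le_one_right (one_div_pos.2 hρ).le a1).trans
          (one_div_le_one_div_of_le (by positivity) (pow_le_pow_left₀ (by positivity) ?_ _))
        have : (n : ℝ) ≤ r := by exact_mod_cast (not_le.1 hn).le
        linarith) X hX Y hD).2
    simp only [← mul_sub] at h1
    rw [tsum_mul_left, tsum_eq_finsum (hf.finite_support hD), abs_mul,
      abs_of_pos (one_div_pos.2 hρ), one_div, inv_mul_le_iff₀ hρ] at h1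
    have h2 := @finsum_indicator_diff _ _ _ _ hp _ _ hD (fun _ => Classical.propDecidable _)
    have hfin := hp.finite_diff hD
    have hdef := finite_defects (F := F) hX hD
    have hs : {a | ∃ j, Occurs (F j).1 (F j).2 Y a}.Finite :=
      (hdef.image Prod.snd).subset (fun a ⟨j, hj⟩ => ⟨(j, a), hj, rfl⟩)
    refine ⟨hfin.subset (fun a ha he => ha.2 (Eq.mp he ha.1)),
      hfin.subset (fun a ha he => ha.2 (Eq.mpr he ha.1)), hs, ?_⟩
    have h3 : ∑ᶠ a, (f (sh a Y) - f (sh a X)) =
        ({a | Occurs D p Y a ∧ ¬ Occurs D p X a}.ncard : ℝ) -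
          ({a | Occurs D p X a ∧ ¬ Occurs D p Y a}.ncard : ℝ) := by
      refine Eq.trans ?_ h2
      refine finsum_congr (fun a => ?_)
      simp only [f]
      split_ifs <;> rfl
    rw [h3] at h1
    refine h1.trans (le_of_eq ?_)
    rw [← mul_assoc, mul_comm _ C]
    rfl
  · intro g hg X Y hX hD
    obtain ⟨h1, h2⟩ := hq g hg X hX Y hD
    simp only [hsub]
    rw [← (Equiv.neg (Fin 2 → ℤ)).tsum_eq (fun a => g (sh a Y) - g (sh a X))] at h2
    exact ⟨((Equiv.neg (Fin 2 → ℤ)).summable_iff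
      (f := fun a => g (sh a Y) - g (sh a X))).2 h1, h2⟩

end Pool.Agent.Results.MP_c73c36_mp.UniformSBC
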